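import Pool.Agent.Lib_helper91.FR.Final

/-!
# Supercongruences for central binomial coefficients times Franel numbers

Full answer (proof) to Q1 of MP_e5c111_nt: all six congruences modulo `p^2`.
-/

namespace Pool.Agent.Results.MP_e5c111_nt.FranelSupercongruences

open Finset

/-- the Franel numbers `f_n = ∑_{k=0}^n C(n,k)^3` -/
def franel (n : ℕ) : ℚ := ∑ k ∈ range (n + 1), ((n.choose k : ℕ) : ℚ) ^ 3

/-- `a_n = C(2n,n) f_n` -/
def seqA (n : ℕ) : ℚ := (((2 * n).choose n : ℕ) : ℚ) * franel n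

/-- `u ≡ v (mod p^2)`: `u - v = p^2 r` with `r` a rational number whose denominator is not divisible by `p` -/
def CongSq (p : ℕ) (u v : ℚ) : Prop := ∃ r : ℚ, ¬ p ∣ r.den ∧ u - v = (p : ℚ) ^ 2 * r

instance fact7 : Fact (Nat.Prime 7) := ⟨by norm_num⟩

open Pool.Agent.Lib_helper91.FR

theorem of_Zg (p : ℕ) (hp : p.Prime) (a b m c : ℤ) (hm : ¬ (p : ℤ) ∣ m) (h : Zg p a b m c) :
    CongSq p (∑ n ∈ range p, ((a : ℚ) * (n : ℚ) + (b : ℚ)) / (m : ℚ) ^ n * seqA n) ((c : ℚ) * (p : ℚ)) := by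
  obtain ⟨r, hr, h1⟩ := rat_of_Zg p hp a b m c hm h
  refine ⟨r, hr, ?_⟩
  rw [← h1]
  congr 1
  refine sum_congr rfl fun n _ => ?_
  rw [seqA, franel, mul_assoc]

theorem ndvd (p : ℕ) (hp : p.Prime) (h3 : 3 < p) (l : List ℕ) (n : ℤ)
    (hl : (l.map (Nat.cast : ℕ → ℤ)).prod = -n) (h : ∀ q ∈ l, q.Prime ∧ p ≠ q) : ¬ (p : ℤ) ∣ n :=
  Final_ndvd p hp n l (Or.inr hl) (fun q hq hd => (h q hq).2 ((Nat.prime_dvd_prime_iff_eq hp (h q hq).1).1 hd))

/-- all six congruences -/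
theorem result (p : ℕ) [Fact p.Prime] (hp : 3 < p) :
    CongSq p (∑ n ∈ range p, (3 * (n : ℚ) + 1) / (-16 : ℚ) ^ n * seqA n)
      ((legendreSym p (-1) : ℚ) * p) ∧
    (p ≠ 5 → p ≠ 7 →
      CongSq p (∑ n ∈ range p, (15 * (n : ℚ) + 4) / (-49 : ℚ) ^ n * seqA n)
        (4 * (legendreSym 3 (p : ℤ) : ℚ) * p)) ∧
    (p ≠ 7 →
      CongSq p (∑ n ∈ range p, (9 * (n : ℚ) + 2) / (-112 : ℚ) ^ n * seqA n)
        (2 * (legendreSym 7 (p : ℤ) : ℚ) * p)) ∧
    (p ≠ 5 →
      CongSq p (∑ n ∈ range p, (99 * (n : ℚ) + 17) / (-400 : ℚ) ^ n * seqA n)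
        (17 * (legendreSym p (-1) : ℚ) * p)) ∧
    (p ≠ 13 →
      CongSq p (∑ n ∈ range p, (855 * (n : ℚ) + 109) / (-2704 : ℚ) ^ n * seqA n)
        (109 * p * (legendreSym p (-1) : ℚ))) ∧
    (p ≠ 7 → p ≠ 31 →
      CongSq p (∑ n ∈ range p, (585 * (n : ℚ) + 58) / (-24304 : ℚ) ^ n * seqA n)
        (58 * p * (legendreSym p (-31) : ℚ))) := by
  have hpp : p.Prime := Fact.out
  have h2 : p ≠ 2 := by omega
  have c1 : legendreSym p (-1) = ch1 p := by rw [jacobiSym.legendreSym.to_jacobiSym, jac_neg_one p hpp hp]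
  have c3 : legendreSym 3 (p : ℤ) = ch3 p := by rw [jacobiSym.legendreSym.to_jacobiSym, jac3 p hpp hp]
  refine ⟨?_, ?_, ?_, ?_, ?_, ?_⟩
  · have h := of_Zg p hpp 3 1 (-16) _ (ndvd p hpp hp [2, 2, 2, 2] _ (by norm_num) (by
      simp [Nat.prime_two, h2])) (all16 p hpp hp)
    rw [c1]
    push_cast at h ⊢
    exact h
  · intro h5 h7
    have h := of_Zg p hpp 15 4 (-49) _ (ndvd p hpp hp [7, 7] _ (by norm_num) (by
      simp only [List.mem_cons, List.not_mem_nil, or_false]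
      rintro q (rfl | rfl) <;> exact ⟨by norm_num, h7⟩)) (all49 p hpp hp h5 h7)
    rw [c3]
    push_cast at h ⊢
    exact h
  · intro h7
    have c7 : legendreSym 7 (p : ℤ) = ch7 p := by rw [jacobiSym.legendreSym.to_jacobiSym, jac7 p hpp hp h7]
    have h := of_Zg p hpp 9 2 (-112) _ (ndvd p hpp hp [2, 2, 2, 2, 7] _ (by norm_num) (by
      simp only [List.mem_cons, List.not_mem_nil, or_false]
      rintro q (rfl | rfl | rfl | rfl | rfl)
      · exact ⟨by norm_num, h2⟩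
      · exact ⟨by norm_num, h2⟩
      · exact ⟨by norm_num, h2⟩
      · exact ⟨by norm_num, h2⟩
      · exact ⟨by norm_num, h7⟩)) (all112 p hpp hp h7)
    rw [c7]
    push_cast at h ⊢
    exact h
  · intro h5
    have h := of_Zg p hpp 99 17 (-400) _ (ndvd p hpp hp [2, 2, 2, 2, 5, 5] _ (by norm_num) (by
      simp only [List.mem_cons, List.not_mem_nil, or_false]
      rintro q (rfl | rfl | rfl | rfl | rfl | rfl)
      · exact ⟨by norm_num, h2⟩
      · exact ⟨by norm_num, h2⟩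
      · exact ⟨by norm_num, h2⟩
      · exact ⟨by norm_num, h2⟩
      · exact ⟨by norm_num, h5⟩
      · exact ⟨by norm_num, h5⟩)) (all400 p hpp hp h5)
    rw [c1]
    push_cast at h ⊢
    exact h
  · intro h13
    have h := of_Zg p hpp 855 109 (-2704) _ (ndvd p hpp hp [2, 2, 2, 2, 13, 13] _ (by norm_num) (by
      simp only [List.mem_cons, List.not_mem_nil, or_false]
      rintro q (rfl | rfl | rfl | rfl | rfl | rfl)
      · exact ⟨by norm_num, h2⟩
      · exact ⟨by norm_num, h2⟩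
      · exact ⟨by norm_num, h2⟩
      · exact ⟨by norm_num, h2⟩
      · exact ⟨by norm_num, h13⟩
      · exact ⟨by norm_num, h13⟩)) (all2704 p hpp hp h13)
    rw [c1]
    push_cast at h ⊢
    convert h using 1
    ring
  · intro h7 h31
    have c31 : legendreSym p (-31) = ch31 p := by rw [jacobiSym.legendreSym.to_jacobiSym, jac31 p hpp hp h31]
    have h := of_Zg p hpp 585 58 (-24304) _ (ndvd p hpp hp [2, 2, 2, 2, 7, 7, 31] _ (by norm_num) (by
      simp only [List.mem_cons, List.not_mem_nil, or_false]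
      rintro q (rfl | rfl | rfl | rfl | rfl | rfl | rfl)
      · exact ⟨by norm_num, h2⟩
      · exact ⟨by norm_num, h2⟩
      · exact ⟨by norm_num, h2⟩
      · exact ⟨by norm_num, h2⟩
      · exact ⟨by norm_num, h7⟩
      · exact ⟨by norm_num, h7⟩
      · exact ⟨by norm_num, h31⟩)) (all24304 p hpp hp h7 h31)
    rw [c31]
    push_cast at h ⊢
    convert h using 1
    ring

end Pool.Agent.Results.MP_e5c111_nt.FranelSupercongruences
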